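import Pool.Agent.Y494.PK.Fin0

/-!
The conjecture of Gyori, Salia, Tompkins and Zamora: for every odd `k` with `k ≥ 9` and all
sufficiently large `n`, the generalized Turan number `ex(n, P_{k-1}, P_k)` is attained by one of
the graphs `G_{n,k,m}`.
-/

namespace Pool.Agent.Results.MP_490135_co.PathCountExact

open SimpleGraph

/-- The generalized Turan number `ex(n,H,F)`: the maximum number of copies of `H` (subgraphs
isomorphic to `H`, `SimpleGraph.copyCount`) over all graphs on `n` vertices containing no copy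
of `F` (`SimpleGraph.Free`). -/
noncomputable def exGen {W W' : Type} (n : ℕ) (H : SimpleGraph W) (F : SimpleGraph W') : ℕ :=
  sSup {c : ℕ | ∃ G : SimpleGraph (Fin n), F.Free G ∧ G.copyCount H = c}

/-- The graph `G_{n,k,m}`, with `l = k / 2`: the vertices `0, …, l-1` form a clique with
distinguished vertex `0`, the `m` vertices `l, …, l+m-1` are adjacent only to `0`, and the
remaining `n-m-l` vertices are adjacent exactly to `1, …, l-1`. -/
def Gnkm (n k m : ℕ) : SimpleGraph (Fin n) :=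
  SimpleGraph.fromRel (fun a b =>
    ((a : ℕ) < k / 2 ∧ (b : ℕ) < k / 2) ∨
    ((a : ℕ) = 0 ∧ k / 2 ≤ (b : ℕ) ∧ (b : ℕ) < k / 2 + m) ∨
    (1 ≤ (a : ℕ) ∧ (a : ℕ) < k / 2 ∧ k / 2 + m ≤ (b : ℕ)))

/-- For every odd `k ≥ 9` and all large `n`:
`ex(n, P_{k-1}, P_k) = max_{0 ≤ m ≤ n - k/2} N(P_{k-1}, G_{n,k,m})`, and the maximum over all
`P_k`-free graphs is attained by a graph `G_{n,k,m}` for which the number of copies of `P_{k-1}`
is maximal over `m`. -/
theorem result : ∀ k : ℕ, Odd k → 9 ≤ k → ∃ n₀ : ℕ, ∀ n ≥ n₀,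
      exGen n (pathGraph (k - 1)) (pathGraph k) =
        sSup {c : ℕ | ∃ m ≤ n - k / 2, (Gnkm n k m).copyCount (pathGraph (k - 1)) = c} ∧
      ∃ m ≤ n - k / 2, (pathGraph k).Free (Gnkm n k m) ∧
        (∀ m' ≤ n - k / 2, (Gnkm n k m').copyCount (pathGraph (k - 1)) ≤
          (Gnkm n k m).copyCount (pathGraph (k - 1))) ∧
        ∀ G : SimpleGraph (Fin n), (pathGraph k).Free G →
          G.copyCount (pathGraph (k - 1)) ≤ (Gnkm n k m).copyCount (pathGraph (k - 1)) := by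
  intro k hk hk9
  obtain ⟨l, rfl⟩ := hk
  obtain ⟨n₀, hn₀⟩ := Y494.PK.mainTheorem l (by omega)
  have e1 : (2 * l + 1) / 2 = l := by omega
  have e3 : ∀ n m, Gnkm n (2 * l + 1) m = Y494.PK.GG n l m := by
    intro n m; unfold Gnkm Y494.PK.GG; rw [e1]
  refine ⟨n₀, fun n hn => ?_⟩
  obtain ⟨m, hm, hfree, hmax, hG⟩ := hn₀ n hn
  change exGen n (pathGraph (2 * l)) (pathGraph (2 * l + 1)) =
        sSup {c : ℕ | ∃ m ≤ n - (2 * l + 1) / 2,
          (Gnkm n (2 * l + 1) m).copyCount (pathGraph (2 * l)) = c} ∧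
      ∃ m ≤ n - (2 * l + 1) / 2, (pathGraph (2 * l + 1)).Free (Gnkm n (2 * l + 1) m) ∧
        (∀ m' ≤ n - (2 * l + 1) / 2, (Gnkm n (2 * l + 1) m').copyCount (pathGraph (2 * l)) ≤
          (Gnkm n (2 * l + 1) m).copyCount (pathGraph (2 * l))) ∧
        ∀ G : SimpleGraph (Fin n), (pathGraph (2 * l + 1)).Free G →
          G.copyCount (pathGraph (2 * l)) ≤
            (Gnkm n (2 * l + 1) m).copyCount (pathGraph (2 * l))
  simp only [e3, e1]
  refine ⟨?_, m, hm, hfree m hm, hmax, hG⟩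
  have h1 : IsGreatest {c : ℕ | ∃ G : SimpleGraph (Fin n), (pathGraph (2 * l + 1)).Free G ∧
      G.copyCount (pathGraph (2 * l)) = c}
      ((Y494.PK.GG n l m).copyCount (pathGraph (2 * l))) := by
    refine ⟨⟨_, hfree m hm, rfl⟩, ?_⟩
    rintro c ⟨G, h, rfl⟩
    exact hG G h
  have h2 : IsGreatest {c : ℕ | ∃ m ≤ n - l,
      (Y494.PK.GG n l m).copyCount (pathGraph (2 * l)) = c}
      ((Y494.PK.GG n l m).copyCount (pathGraph (2 * l))) := by
    refine ⟨⟨m, hm, rfl⟩, ?_⟩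
    rintro c ⟨m', h, rfl⟩
    exact hmax m' h
  unfold exGen
  rw [h1.csSup_eq, h2.csSup_eq]

end Pool.Agent.Results.MP_490135_co.PathCountExact
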